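import Mathlib

/-!
Plane geometry (in coordinates): three points at mutual distance at most one are contained, up to
the convex hull, in a set of diameter one whose extent in both coordinate directions is one.
-/

set_option autoImplicit false

namespace Pool.Agent.TCUpper

open Real

/-- Squared distance. -/
def sq (p q : ℝ × ℝ) : ℝ := (p.1 - q.1) ^ 2 + (p.2 - q.2) ^ 2

lemma sq_comm' (p q : ℝ × ℝ) : sq p q = sq q p := by
  unfold sq; ring

/-- The key lemma: `q = P + α u₁ + β u₂` (unit vectors) at distance one from `P` is at distance at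
most one from every point close to `P`, `P + u₁`, `P + u₂`. -/
lemma cone {P p u w : ℝ × ℝ} {α β : ℝ} (hα : 0 ≤ α) (hβ : 0 ≤ β)
    (hu : u.1 ^ 2 + u.2 ^ 2 = 1) (hw : w.1 ^ 2 + w.2 ^ 2 = 1)
    (hq : (α * u.1 + β * w.1) ^ 2 + (α * u.2 + β * w.2) ^ 2 = 1)
    (_h0 : sq p P ≤ 1) (h1 : sq p (P.1 + u.1, P.2 + u.2) ≤ 1)
    (h2 : sq p (P.1 + w.1, P.2 + w.2) ≤ 1) :
    sq p (P.1 + (α * u.1 + β * w.1), P.2 + (α * u.2 + β * w.2)) ≤ 1 := by
  unfold sq at *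
  simp only at *
  have hdot : u.1 * w.1 + u.2 * w.2 ≤ 1 := by
    nlinarith [sq_nonneg (u.1 - w.1), sq_nonneg (u.2 - w.2)]
  have hab : 1 ≤ α + β := by
    have h : (α + β) ^ 2 ≥ 1 := by
      have e : (α * u.1 + β * w.1) ^ 2 + (α * u.2 + β * w.2) ^ 2
          = α ^ 2 * (u.1 ^ 2 + u.2 ^ 2) + β ^ 2 * (w.1 ^ 2 + w.2 ^ 2)
            + 2 * (α * β) * (u.1 * w.1 + u.2 * w.2) := by ring
      rw [e, hu, hw] at hq
      have := mul_le_mul_of_nonneg_left hdot (mul_nonneg hα hβ)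
      nlinarith
    nlinarith
  set d1 := p.1 - P.1 with hd1
  set d2 := p.2 - P.2 with hd2
  have e1 : p.1 - (P.1 + u.1) = d1 - u.1 := by rw [hd1]; ring
  have e2 : p.2 - (P.2 + u.2) = d2 - u.2 := by rw [hd2]; ring
  have e3 : p.1 - (P.1 + w.1) = d1 - w.1 := by rw [hd1]; ring
  have e4 : p.2 - (P.2 + w.2) = d2 - w.2 := by rw [hd2]; ring
  have e5 : p.1 - (P.1 + (α * u.1 + β * w.1)) = d1 - (α * u.1 + β * w.1) := by rw [hd1]; ring
  have e6 : p.2 - (P.2 + (α * u.2 + β * w.2)) = d2 - (α * u.2 + β * w.2) := by rw [hd2]; ring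
  rw [e1, e2] at h1
  rw [e3, e4] at h2
  rw [e5, e6]
  have k1 : d1 ^ 2 + d2 ^ 2 ≤ 2 * (d1 * u.1 + d2 * u.2) := by nlinarith
  have k2 : d1 ^ 2 + d2 ^ 2 ≤ 2 * (d1 * w.1 + d2 * w.2) := by nlinarith
  have k1' := mul_le_mul_of_nonneg_left k1 hα
  have k2' := mul_le_mul_of_nonneg_left k2 hβ
  have k3 : 0 ≤ (α + β - 1) * (d1 ^ 2 + d2 ^ 2) := mul_nonneg (by linarith) (by positivity)
  nlinarith

/-- `p` is at distance at most one from the three vertices. -/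
def Near (A B C p : ℝ × ℝ) : Prop := sq p A ≤ 1 ∧ sq p B ≤ 1 ∧ sq p C ≤ 1

/-- `z` is near the vertices and at distance at most one from all points near the vertices. -/
def Core (A B C z : ℝ × ℝ) : Prop := Near A B C z ∧ ∀ p, Near A B C p → sq p z ≤ 1

/-- In every coordinate-free direction `e` there are two core points differing by `e`. The triangle
is `A, A + u, A + w` with `w` the rotation of `u` by `ε * 60` degrees, `ε = ±1`. -/
lemma ext (A u e : ℝ × ℝ) (ε : ℝ) (hε : ε ^ 2 = 1) (hu : u.1 ^ 2 + u.2 ^ 2 = 1)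
    (he : e.1 ^ 2 + e.2 ^ 2 = 1) :
    ∃ l r : ℝ × ℝ, r.1 = l.1 + e.1 ∧ r.2 = l.2 + e.2 ∧
      Core A (A.1 + u.1, A.2 + u.2)
        (A.1 + (u.1 / 2 - ε * (√3 / 2) * u.2), A.2 + (u.2 / 2 + ε * (√3 / 2) * u.1)) l ∧
      Core A (A.1 + u.1, A.2 + u.2)
        (A.1 + (u.1 / 2 - ε * (√3 / 2) * u.2), A.2 + (u.2 / 2 + ε * (√3 / 2) * u.1)) r := by
  have h3 : √3 ^ 2 = 3 := Real.sq_sqrt (by norm_num)
  have hs2 : (√3 / 2) ^ 2 = 3 / 4 := by nlinarith
  have hspos : 0 < √3 / 2 := by positivity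
  generalize √3 / 2 = s at *
  clear h3
  obtain ⟨A1, A2⟩ := A
  obtain ⟨u1, u2⟩ := u
  obtain ⟨e1, e2⟩ := e
  simp only at *
  set w1 := u1 / 2 - ε * s * u2 with hw1
  set w2 := u2 / 2 + ε * s * u1 with hw2
  have hεs : (ε * s) ^ 2 = 3 / 4 := by rw [mul_pow, hε, hs2]; norm_num
  have hw : w1 ^ 2 + w2 ^ 2 = 1 := by
    rw [hw1, hw2]
    have : (u1 / 2 - ε * s * u2) ^ 2 + (u2 / 2 + ε * s * u1) ^ 2
        = (1 / 4 + (ε * s) ^ 2) * (u1 ^ 2 + u2 ^ 2) := by ring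
    rw [this, hεs, hu]; norm_num
  have huw : u1 * w1 + u2 * w2 = 1 / 2 := by
    rw [hw1, hw2]
    have : u1 * (u1 / 2 - ε * s * u2) + u2 * (u2 / 2 + ε * s * u1)
        = (u1 ^ 2 + u2 ^ 2) / 2 := by ring
    rw [this, hu]
  have hdet : u1 * w2 - u2 * w1 = ε * s := by
    rw [hw1, hw2]
    have : u1 * (u2 / 2 + ε * s * u1) - u2 * (u1 / 2 - ε * s * u2)
        = ε * s * (u1 ^ 2 + u2 ^ 2) := by ring
    rw [this, hu]; ring
  clear_value w1 w2
  -- coefficients of `e` in the basis `u, w`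
  have hεs0 : ε * s ≠ 0 := by
    intro h
    rw [h] at hεs
    norm_num at hεs
  obtain ⟨α, β, hα, hβ⟩ : ∃ α β : ℝ, e1 = α * u1 + β * w1 ∧ e2 = α * u2 + β * w2 := by
    generalize ε * s = d at hdet hεs0
    refine ⟨(e1 * w2 - e2 * w1) / d, (u1 * e2 - u2 * e1) / d, ?_, ?_⟩
    · field_simp
      rw [← hdet]; ring
    · field_simp
      rw [← hdet]; ring
  have dAB : sq (A1, A2) (A1 + u1, A2 + u2) ≤ 1 := by
    have : sq (A1, A2) (A1 + u1, A2 + u2) = u1 ^ 2 + u2 ^ 2 := by unfold sq; ring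
    rw [this, hu]
  have dAC : sq (A1, A2) (A1 + w1, A2 + w2) ≤ 1 := by
    have : sq (A1, A2) (A1 + w1, A2 + w2) = w1 ^ 2 + w2 ^ 2 := by unfold sq; ring
    rw [this, hw]
  have dBC : sq (A1 + u1, A2 + u2) (A1 + w1, A2 + w2) ≤ 1 := by
    have : sq (A1 + u1, A2 + u2) (A1 + w1, A2 + w2) = (u1 ^ 2 + u2 ^ 2) + (w1 ^ 2 + w2 ^ 2)
        - 2 * (u1 * w1 + u2 * w2) := by unfold sq; ring
    rw [this, hu, hw, huw]; norm_num
  have dself : ∀ p : ℝ × ℝ, sq p p ≤ 1 := by intro p; unfold sq; norm_num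
  have nA : Near (A1, A2) (A1 + u1, A2 + u2) (A1 + w1, A2 + w2) (A1, A2) :=
    ⟨dself _, dAB, dAC⟩
  have nB : Near (A1, A2) (A1 + u1, A2 + u2) (A1 + w1, A2 + w2) (A1 + u1, A2 + u2) :=
    ⟨by rw [sq_comm']; exact dAB, dself _, dBC⟩
  have nC : Near (A1, A2) (A1 + u1, A2 + u2) (A1 + w1, A2 + w2) (A1 + w1, A2 + w2) :=
    ⟨by rw [sq_comm']; exact dAC, by rw [sq_comm']; exact dBC, dself _⟩
  have cA : Core (A1, A2) (A1 + u1, A2 + u2) (A1 + w1, A2 + w2) (A1, A2) :=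
    ⟨nA, fun p hp => hp.1⟩
  have cB : Core (A1, A2) (A1 + u1, A2 + u2) (A1 + w1, A2 + w2) (A1 + u1, A2 + u2) :=
    ⟨nB, fun p hp => hp.2.1⟩
  have cC : Core (A1, A2) (A1 + u1, A2 + u2) (A1 + w1, A2 + w2) (A1 + w1, A2 + w2) :=
    ⟨nC, fun p hp => hp.2.2⟩
  -- a point that is close to all near points is a core point
  have mk : ∀ z : ℝ × ℝ, (∀ p, Near (A1, A2) (A1 + u1, A2 + u2) (A1 + w1, A2 + w2) p →
      sq p z ≤ 1) → Core (A1, A2) (A1 + u1, A2 + u2) (A1 + w1, A2 + w2) z := by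
    intro z hz
    refine ⟨⟨?_, ?_, ?_⟩, hz⟩
    · rw [sq_comm']; exact hz _ nA
    · rw [sq_comm']; exact hz _ nB
    · rw [sq_comm']; exact hz _ nC
  have heq : ∀ a b : ℝ × ℝ, a.1 = b.1 → a.2 = b.2 → a = b := fun a b h1 h2 => Prod.ext h1 h2
  -- unit normalisations
  have hBu : (-u1) ^ 2 + (-u2) ^ 2 = 1 := by rw [neg_sq, neg_sq]; exact hu
  have hCu : (u1 - w1) ^ 2 + (u2 - w2) ^ 2 = 1 := by
    have : (u1 - w1) ^ 2 + (u2 - w2) ^ 2 = (u1 ^ 2 + u2 ^ 2) + (w1 ^ 2 + w2 ^ 2)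
        - 2 * (u1 * w1 + u2 * w2) := by ring
    rw [this, hu, hw, huw]; norm_num
  have hBw : (w1 - u1) ^ 2 + (w2 - u2) ^ 2 = 1 := by rw [← hCu]; ring
  have hCw : (-w1) ^ 2 + (-w2) ^ 2 = 1 := by rw [neg_sq, neg_sq]; exact hw
  have he' : (-e1) ^ 2 + (-e2) ^ 2 = 1 := by rw [neg_sq, neg_sq]; exact he
  -- cone at A
  have kA : ∀ a b f1 f2 : ℝ, 0 ≤ a → 0 ≤ b → f1 = a * u1 + b * w1 → f2 = a * u2 + b * w2 →
      f1 ^ 2 + f2 ^ 2 = 1 →
      Core (A1, A2) (A1 + u1, A2 + u2) (A1 + w1, A2 + w2) (A1 + f1, A2 + f2) := by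
    intro a b f1 f2 ha hb h1 h2 hf
    apply mk
    intro p hp
    have := cone (P := (A1, A2)) (p := p) (u := (u1, u2)) (w := (w1, w2)) ha hb hu hw
      (by rw [← h1, ← h2]; exact hf) hp.1 hp.2.1 hp.2.2
    simpa only [← h1, ← h2] using this
  -- cone at B
  have kB : ∀ a b f1 f2 : ℝ, 0 ≤ a → 0 ≤ b → f1 = a * (-u1) + b * (w1 - u1) →
      f2 = a * (-u2) + b * (w2 - u2) → f1 ^ 2 + f2 ^ 2 = 1 →
      Core (A1, A2) (A1 + u1, A2 + u2) (A1 + w1, A2 + w2) (A1 + u1 + f1, A2 + u2 + f2) := by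
    intro a b f1 f2 ha hb h1 h2 hf
    apply mk
    intro p hp
    have := cone (P := (A1 + u1, A2 + u2)) (p := p) (u := (-u1, -u2))
      (w := (w1 - u1, w2 - u2)) ha hb hBu hBw
      (by simp only; rw [← h1, ← h2]; exact hf) hp.2.1
      (by
        have e : ((A1 + u1 + -u1, A2 + u2 + -u2) : ℝ × ℝ) = (A1, A2) := by
          ext <;> ring
        simp only; rw [e]; exact hp.1)
      (by
        have e : ((A1 + u1 + (w1 - u1), A2 + u2 + (w2 - u2)) : ℝ × ℝ) = (A1 + w1, A2 + w2) := by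
          ext <;> ring
        simp only; rw [e]; exact hp.2.2)
    simpa only [← h1, ← h2] using this
  -- cone at C
  have kC : ∀ a b f1 f2 : ℝ, 0 ≤ a → 0 ≤ b → f1 = a * (-w1) + b * (u1 - w1) →
      f2 = a * (-w2) + b * (u2 - w2) → f1 ^ 2 + f2 ^ 2 = 1 →
      Core (A1, A2) (A1 + u1, A2 + u2) (A1 + w1, A2 + w2) (A1 + w1 + f1, A2 + w2 + f2) := by
    intro a b f1 f2 ha hb h1 h2 hf
    apply mk
    intro p hp
    have := cone (P := (A1 + w1, A2 + w2)) (p := p) (u := (-w1, -w2))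
      (w := (u1 - w1, u2 - w2)) ha hb hCw hCu
      (by simp only; rw [← h1, ← h2]; exact hf) hp.2.2
      (by
        have e : ((A1 + w1 + -w1, A2 + w2 + -w2) : ℝ × ℝ) = (A1, A2) := by
          ext <;> ring
        simp only; rw [e]; exact hp.1)
      (by
        have e : ((A1 + w1 + (u1 - w1), A2 + w2 + (u2 - w2)) : ℝ × ℝ) = (A1 + u1, A2 + u2) := by
          ext <;> ring
        simp only; rw [e]; exact hp.2.1)
    simpa only [← h1, ← h2] using this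
  rcases le_total 0 α with ha | ha <;> rcases le_total 0 β with hb | hb
  · exact ⟨(A1, A2), (A1 + e1, A2 + e2), rfl, rfl, cA, kA α β e1 e2 ha hb hα hβ he⟩
  · rcases le_total 0 (α + β) with hc | hc
    · -- B with sign -
      refine ⟨(A1 + u1 + -e1, A2 + u2 + -e2), (A1 + u1, A2 + u2), by simp, by simp, ?_, cB⟩
      refine kB (α + β) (-β) (-e1) (-e2) hc (by linarith) ?_ ?_ he'
      · rw [hα]; ring
      · rw [hβ]; ring
    · -- C with sign +
      refine ⟨(A1 + w1, A2 + w2), (A1 + w1 + e1, A2 + w2 + e2), rfl, rfl, cC, ?_⟩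
      refine kC (-(α + β)) α e1 e2 (by linarith) ha ?_ ?_ he
      · rw [hα]; ring
      · rw [hβ]; ring
  · rcases le_total 0 (α + β) with hc | hc
    · -- C with sign -
      refine ⟨(A1 + w1 + -e1, A2 + w2 + -e2), (A1 + w1, A2 + w2), by simp, by simp, ?_, cC⟩
      refine kC (α + β) (-α) (-e1) (-e2) hc (by linarith) ?_ ?_ he'
      · rw [hα]; ring
      · rw [hβ]; ring
    · -- B with sign +
      refine ⟨(A1 + u1, A2 + u2), (A1 + u1 + e1, A2 + u2 + e2), rfl, rfl, cB, ?_⟩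
      refine kB (-(α + β)) β e1 e2 (by linarith) hb ?_ ?_ he
      · rw [hα]; ring
      · rw [hβ]; ring
  · refine ⟨(A1 + -e1, A2 + -e2), (A1, A2), by simp, by simp, ?_, cA⟩
    refine kA (-α) (-β) (-e1) (-e2) (by linarith) (by linarith) ?_ ?_ he'
    · rw [hα]; ring
    · rw [hβ]; ring

end Pool.Agent.TCUpper
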