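import Mathlib

/-!
The truncated square: upper profile `prof` and its basic properties
(concavity, continuity, corner criterion).
-/

set_option autoImplicit false

namespace Pool.Agent.TCUpper

open Real

/-- The corner arc `x = cos a ↦ cos (π/6 - a)`. -/
noncomputable def arc (x : ℝ) : ℝ := √3 / 2 * x + 1 / 2 * √(1 - x ^ 2)

/-- Upper profile of the truncated square. -/
noncomputable def prof (x : ℝ) : ℝ :=
  min (arc (max x (√3 / 2))) (arc (max (1 - x) (√3 / 2)))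

lemma sq3 : √3 ^ 2 = 3 := Real.sq_sqrt (by norm_num)

lemma s_pos : 0 < √3 / 2 := by positivity

lemma s_sq : (√3 / 2) ^ 2 = 3 / 4 := by
  have := sq3
  nlinarith

lemma s_lt_one : √3 / 2 < 1 := by
  have h := s_sq
  have h' := s_pos
  nlinarith

lemma s_gt : 4 / 5 < √3 / 2 := by
  have h := s_sq
  have h' := s_pos
  nlinarith

lemma arc_continuous : Continuous arc := by
  unfold arc
  fun_prop

lemma prof_continuous : Continuous prof := by
  unfold prof
  exact (arc_continuous.comp (by fun_prop)).min (arc_continuous.comp (by fun_prop))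

lemma arc_le_one {x : ℝ} (hx : x ^ 2 ≤ 1) : arc x ≤ 1 := by
  unfold arc
  have h1 : √(1 - x ^ 2) ^ 2 = 1 - x ^ 2 := Real.sq_sqrt (by linarith)
  have h3 := sq3
  have h0 := Real.sqrt_nonneg (1 - x ^ 2)
  nlinarith [sq_nonneg (√(1 - x ^ 2) - 1 / 2), sq_nonneg (x - √3 / 2)]

lemma arc_s : arc (√3 / 2) = 1 := by
  unfold arc
  have h : (1 : ℝ) - (√3 / 2) ^ 2 = (1 / 2) ^ 2 := by rw [s_sq]; norm_num
  rw [h, Real.sqrt_sq (by norm_num)]
  nlinarith [sq3]

lemma arc_one : arc 1 = √3 / 2 := by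
  unfold arc
  norm_num

lemma arc_concaveOn : ConcaveOn ℝ (Set.Icc (-1) 1) arc := by
  refine ⟨convex_Icc _ _, ?_⟩
  intro x hx y hy a b ha hb hab
  simp only [smul_eq_mul]
  unfold arc
  have hx2 : 0 ≤ 1 - x ^ 2 := by nlinarith [hx.1, hx.2]
  have hy2 : 0 ≤ 1 - y ^ 2 := by nlinarith [hy.1, hy.2]
  set u := √(1 - x ^ 2) with hu
  set v := √(1 - y ^ 2) with hv
  have hu2 : u ^ 2 = 1 - x ^ 2 := Real.sq_sqrt hx2
  have hv2 : v ^ 2 = 1 - y ^ 2 := Real.sq_sqrt hy2
  have hu0 : 0 ≤ u := Real.sqrt_nonneg _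
  have hv0 : 0 ≤ v := Real.sqrt_nonneg _
  have huv : u * v ≤ 1 - x * y := by
    have : 0 ≤ 1 - x * y := by nlinarith [sq_nonneg (x - y), sq_nonneg (x + y)]
    refine abs_le_of_sq_le_sq' ?_ this |>.2
    nlinarith [sq_nonneg (x - y)]
  have key : a * u + b * v ≤ √(1 - (a * x + b * y) ^ 2) := by
    apply Real.le_sqrt_of_sq_le
    have hb' : b = 1 - a := by linarith
    have hab0 : 0 ≤ a * b := mul_nonneg ha hb
    have : (a * u + b * v) ^ 2 ≤ a ^ 2 * (1 - x ^ 2) + b ^ 2 * (1 - y ^ 2)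
        + 2 * (a * b) * (1 - x * y) := by
      have : (a * u + b * v) ^ 2 = a ^ 2 * u ^ 2 + b ^ 2 * v ^ 2 + 2 * (a * b) * (u * v) := by
        ring
      rw [this, hu2, hv2]
      have := mul_le_mul_of_nonneg_left huv hab0
      linarith
    refine this.trans (le_of_eq ?_)
    subst hb'
    ring
  linarith

lemma arc_anti {x y : ℝ} (hx : √3 / 2 ≤ x) (hxy : x ≤ y) (hy : y ≤ 1) : arc y ≤ arc x := by
  have hs := s_gt
  have h := arc_concaveOn.min_le_of_mem_Icc (x := √3 / 2) (y := y) (z := x)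
    ⟨by linarith, by linarith⟩ ⟨by linarith, hy⟩ ⟨hx, hxy⟩
  have h1 : arc y ≤ 1 := arc_le_one (by nlinarith)
  rw [arc_s, min_eq_right h1] at h
  exact h

lemma s_le_arc {x : ℝ} (hx : √3 / 2 ≤ x) (hx1 : x ≤ 1) : √3 / 2 ≤ arc x := by
  have := arc_anti hx hx1 le_rfl
  rwa [arc_one] at this

/-- Concavity of `x ↦ arc (max x (√3/2))` on `(-∞, 1]`. -/
lemma arc_max_concaveOn : ConcaveOn ℝ (Set.Iic 1) (fun x => arc (max x (√3 / 2))) := by
  refine ⟨convex_Iic _, ?_⟩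
  intro x hx y hy a b ha hb hab
  simp only [smul_eq_mul, Set.mem_Iic] at *
  have hs := s_lt_one
  have hs' := s_gt
  have hx1 : max x (√3 / 2) ≤ 1 := max_le hx hs.le
  have hy1 : max y (√3 / 2) ≤ 1 := max_le hy hs.le
  have hxs : √3 / 2 ≤ max x (√3 / 2) := le_max_right _ _
  have hys : √3 / 2 ≤ max y (√3 / 2) := le_max_right _ _
  have h1 : a * arc (max x (√3 / 2)) + b * arc (max y (√3 / 2)) ≤
      arc (a * max x (√3 / 2) + b * max y (√3 / 2)) := by
    have := arc_concaveOn.2 (x := max x (√3 / 2)) ⟨by linarith, hx1⟩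
      (y := max y (√3 / 2)) ⟨by linarith, hy1⟩ ha hb hab
    simpa using this
  refine h1.trans (arc_anti (le_max_right _ _) ?_ ?_)
  · refine max_le ?_ ?_
    · have := mul_le_mul_of_nonneg_left (le_max_left x (√3 / 2)) ha
      have := mul_le_mul_of_nonneg_left (le_max_left y (√3 / 2)) hb
      linarith
    · have := mul_le_mul_of_nonneg_left hxs ha
      have := mul_le_mul_of_nonneg_left hys hb
      nlinarith
  · have := mul_le_mul_of_nonneg_left hx1 ha
    have := mul_le_mul_of_nonneg_left hy1 hb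
    linarith

lemma prof_concaveOn : ConcaveOn ℝ (Set.Icc 0 1) prof := by
  refine ⟨convex_Icc _ _, ?_⟩
  intro x hx y hy a b ha hb hab
  have h1 := arc_max_concaveOn.2 (x := x) hx.2 (y := y) hy.2 ha hb hab
  have h2 := arc_max_concaveOn.2 (x := 1 - x) (by simpa using hx.1) (y := 1 - y)
    (by simpa using hy.1) ha hb hab
  simp only [smul_eq_mul] at *
  have e : a * (1 - x) + b * (1 - y) = 1 - (a * x + b * y) := by
    have : b = 1 - a := by linarith
    subst this; ring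
  rw [e] at h2
  unfold prof
  refine le_min ?_ ?_
  · refine le_trans ?_ h1
    exact add_le_add (mul_le_mul_of_nonneg_left (min_le_left _ _) ha)
      (mul_le_mul_of_nonneg_left (min_le_left _ _) hb)
  · refine le_trans ?_ h2
    exact add_le_add (mul_le_mul_of_nonneg_left (min_le_right _ _) ha)
      (mul_le_mul_of_nonneg_left (min_le_right _ _) hb)

lemma le_of_sq {a b : ℝ} (h : a ^ 2 ≤ b ^ 2) (hb : 0 ≤ b) : a ≤ b :=
  (abs_le_of_sq_le_sq' h hb).2

/-- The corner estimate. -/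
lemma corner {x y l b : ℝ} (h1 : x ^ 2 + (y - l) ^ 2 ≤ 1) (h2 : (x - b) ^ 2 + y ^ 2 ≤ 1)
    (h3 : b ^ 2 + l ^ 2 ≤ 1) (hx : x ≤ 1) (hy : y ≤ 1) : y ≤ arc (max x (√3 / 2)) := by
  have hs := s_gt
  have hs2 := s_sq
  have hs0 := s_pos
  rcases le_total x (√3 / 2) with hxs | hxs
  · rw [max_eq_right hxs, arc_s]; exact hy
  rw [max_eq_left hxs]
  rcases le_total y (√3 / 2) with hys | hys
  · exact hys.trans (s_le_arc hxs hx)
  have hx2 : 0 ≤ 1 - x ^ 2 := by nlinarith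
  have hy2 : 0 ≤ 1 - y ^ 2 := by nlinarith
  have hTdef : arc x = √3 / 2 * x + 1 / 2 * √(1 - x ^ 2) := rfl
  rw [hTdef]
  clear hTdef
  have hx34 : 3 / 4 ≤ x ^ 2 := by rw [← hs2]; exact pow_le_pow_left₀ hs0.le hxs 2
  have hy34 : 3 / 4 ≤ y ^ 2 := by rw [← hs2]; exact pow_le_pow_left₀ hs0.le hys 2
  have hx45 : 4 / 5 < x := by linarith
  have hy45 : 4 / 5 < y := by linarith
  have hu2 : √(1 - x ^ 2) ^ 2 = 1 - x ^ 2 := Real.sq_sqrt hx2
  have hv2 : √(1 - y ^ 2) ^ 2 = 1 - y ^ 2 := Real.sq_sqrt hy2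
  have hu0 : 0 ≤ √(1 - x ^ 2) := Real.sqrt_nonneg _
  have hv0 : 0 ≤ √(1 - y ^ 2) := Real.sqrt_nonneg _
  generalize √(1 - x ^ 2) = u at *
  generalize √(1 - y ^ 2) = v at *
  generalize √3 / 2 = s at *
  have hu' : u ≤ 1 / 2 := le_of_sq (by rw [hu2]; linarith) (by norm_num)
  have hv' : v ≤ 1 / 2 := le_of_sq (by rw [hv2]; linarith) (by norm_num)
  have hl : y - u ≤ l := by
    have : y - l ≤ u := le_of_sq (by rw [hu2]; linarith) hu0
    linarith
  have hb : x - v ≤ b := by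
    have : x - b ≤ v := le_of_sq (by rw [hv2]; linarith) hv0
    linarith
  have hl2 : (y - u) ^ 2 ≤ l ^ 2 := pow_le_pow_left₀ (by linarith) hl 2
  have hb2 : (x - v) ^ 2 ≤ b ^ 2 := pow_le_pow_left₀ (by linarith) hb 2
  have hexp : (x - v) ^ 2 + (y - u) ^ 2 = (x ^ 2 + u ^ 2) + (y ^ 2 + v ^ 2)
      - 2 * (x * v + y * u) := by ring
  rw [hu2, hv2] at hexp
  have hsin : 1 / 2 ≤ x * v + y * u := by linarith
  have hpyth : (x * v + y * u) ^ 2 + (x * y - u * v) ^ 2 = 1 := by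
    have : (x * v + y * u) ^ 2 + (x * y - u * v) ^ 2 = (x ^ 2 + u ^ 2) * (y ^ 2 + v ^ 2) := by
      ring
    rw [this, hu2, hv2]; ring
  have hsin2 : (1 / 2) ^ 2 ≤ (x * v + y * u) ^ 2 := pow_le_pow_left₀ (by norm_num) hsin 2
  have hcos : x * y - u * v ≤ s := le_of_sq (by rw [hs2]; linarith) hs0.le
  have hTW : (s * x + 1 / 2 * u) ^ 2 + (1 / 2 * x - s * u) ^ 2 = 1 := by
    have : (s * x + 1 / 2 * u) ^ 2 + (1 / 2 * x - s * u) ^ 2
        = (s ^ 2 + 1 / 4) * (x ^ 2 + u ^ 2) := by ring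
    rw [this, hs2, hu2]; ring
  have hcross : y * (1 / 2 * x - s * u) ≤ v * (s * x + 1 / 2 * u) := by
    have h : v * (s * x + 1 / 2 * u) - y * (1 / 2 * x - s * u)
        = s * (x * v + y * u) - 1 / 2 * (x * y - u * v) := by ring
    have h' := mul_le_mul_of_nonneg_left hsin hs0.le
    linarith
  have hT0 : 0 ≤ s * x + 1 / 2 * u := by
    have := mul_nonneg hs0.le (by linarith : (0 : ℝ) ≤ x)
    linarith
  have hW0 : 0 ≤ 1 / 2 * x - s * u := by
    have := mul_le_mul_of_nonneg_left hu' hs0.le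
    linarith
  generalize s * x + 1 / 2 * u = T at *
  generalize 1 / 2 * x - s * u = W at *
  apply le_of_not_gt
  intro hcon
  have hT2 : T ^ 2 < y ^ 2 := pow_lt_pow_left₀ hcon hT0 (by norm_num)
  have hW2 : v ^ 2 < W ^ 2 := by rw [hv2]; linarith
  have hWv : v < W := lt_of_pow_lt_pow_left₀ 2 hW0 hW2
  have h1 : v * T ≤ v * y := mul_le_mul_of_nonneg_left hcon.le hv0
  have h2 : v * y < W * y := mul_lt_mul_of_pos_right hWv (by linarith)
  linarith

end Pool.Agent.TCUpper
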