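import Pool.Agent.Helper22_TC_Upper.Shape
import Pool.Agent.Helper22_TC_Upper.Plane

/-!
Every three points at mutual distance at most one lie in a translate of the truncated square.
-/

set_option autoImplicit false

namespace Pool.Agent.TCUpper

open Real

/-- The truncated square, in coordinates. -/
def shape : Set (ℝ × ℝ) := {p | 0 ≤ p.1 ∧ p.1 ≤ 1 ∧ p.2 ≤ prof p.1 ∧ 1 - p.2 ≤ prof p.1}

lemma shape_convex : Convex ℝ shape := by
  rintro ⟨x1, y1⟩ ⟨a1, a2, a3, a4⟩ ⟨x2, y2⟩ ⟨b1, b2, b3, b4⟩ a b ha hb hab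
  simp only [shape, Set.mem_ofPred_eq, Prod.smul_mk, smul_eq_mul, Prod.mk_add_mk] at *
  have h := prof_concaveOn.2 (x := x1) ⟨a1, a2⟩ (y := x2) ⟨b1, b2⟩ ha hb hab
  simp only [smul_eq_mul] at h
  have hb' : b = 1 - a := by linarith
  refine ⟨by positivity, ?_, ?_, ?_⟩
  · have := mul_le_mul_of_nonneg_left a2 ha
    have := mul_le_mul_of_nonneg_left b2 hb
    linarith
  · have := mul_le_mul_of_nonneg_left a3 ha
    have := mul_le_mul_of_nonneg_left b3 hb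
    linarith
  · have := mul_le_mul_of_nonneg_left a4 ha
    have := mul_le_mul_of_nonneg_left b4 hb
    linarith

/-- A point near a configuration with extents one is in the translated truncated square. -/
lemma mem_shape {p l r bo tp : ℝ × ℝ} (hr : r.1 = l.1 + 1) (ht : tp.2 = bo.2 + 1)
    (pl : sq p l ≤ 1) (pr : sq p r ≤ 1) (pb : sq p bo ≤ 1) (pt : sq p tp ≤ 1)
    (lb : sq l bo ≤ 1) (lt : sq l tp ≤ 1) (rb : sq r bo ≤ 1) (rt : sq r tp ≤ 1) :
    (p.1 - l.1, p.2 - bo.2) ∈ shape := by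
  unfold sq at *
  rw [hr] at pr rb rt
  rw [ht] at pt lt rt
  have hx0 : 0 ≤ p.1 - l.1 := by nlinarith [sq_nonneg (p.2 - r.2)]
  have hx1 : p.1 - l.1 ≤ 1 := by nlinarith [sq_nonneg (p.2 - l.2)]
  have hy0 : 0 ≤ p.2 - bo.2 := by nlinarith [sq_nonneg (p.1 - tp.1)]
  have hy1 : p.2 - bo.2 ≤ 1 := by nlinarith [sq_nonneg (p.1 - bo.1)]
  have c1 := corner (x := p.1 - l.1) (y := p.2 - bo.2) (l := l.2 - bo.2) (b := bo.1 - l.1)
    (by linarith [pl]) (by linarith [pb]) (by linarith [lb]) hx1 hy1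
  have c2 := corner (x := 1 - (p.1 - l.1)) (y := p.2 - bo.2) (l := r.2 - bo.2)
    (b := 1 - (bo.1 - l.1)) (by linarith [pr]) (by linarith [pb]) (by linarith [rb])
    (by linarith) hy1
  have c3 := corner (x := p.1 - l.1) (y := 1 - (p.2 - bo.2)) (l := 1 - (l.2 - bo.2))
    (b := tp.1 - l.1) (by linarith [pl]) (by linarith [pt]) (by linarith [lt]) hx1
    (by linarith)
  have c4 := corner (x := 1 - (p.1 - l.1)) (y := 1 - (p.2 - bo.2)) (l := 1 - (r.2 - bo.2))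
    (b := 1 - (tp.1 - l.1)) (by linarith [pr]) (by linarith [pt]) (by linarith [rt])
    (by linarith) (by linarith)
  exact ⟨hx0, hx1, le_min c1 c2, le_min c3 c4⟩

/-- The three point statement when the first two points realise the diameter. -/
lemma three_aux (a c u : ℝ × ℝ) (δ : ℝ) (hu : u.1 ^ 2 + u.2 ^ 2 = 1) (h0 : 0 ≤ δ) (h1 : δ ≤ 1)
    (hac : sq a c ≤ δ ^ 2) (hbc : sq (a.1 + δ * u.1, a.2 + δ * u.2) c ≤ δ ^ 2) :
    ∃ x0 y0 : ℝ, (a.1 - x0, a.2 - y0) ∈ shape ∧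
      (a.1 + δ * u.1 - x0, a.2 + δ * u.2 - y0) ∈ shape ∧ (c.1 - x0, c.2 - y0) ∈ shape := by
  have hδ2 : δ ^ 2 ≤ 1 := by nlinarith
  -- choose the side of the line
  obtain ⟨ε, hε, hεy⟩ : ∃ ε : ℝ, ε ^ 2 = 1 ∧
      0 ≤ ε * (-(c.1 - a.1) * u.2 + (c.2 - a.2) * u.1) := by
    rcases le_total 0 (-(c.1 - a.1) * u.2 + (c.2 - a.2) * u.1) with h | h
    · exact ⟨1, by norm_num, by linarith⟩
    · exact ⟨-1, by norm_num, by linarith⟩
  have hs2 := s_sq
  have hspos := s_pos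
  have hsgt := s_gt
  have nc : Near a (a.1 + u.1, a.2 + u.2)
        (a.1 + (u.1 / 2 - ε * (√3 / 2) * u.2), a.2 + (u.2 / 2 + ε * (√3 / 2) * u.1)) c := by
    generalize √3 / 2 = s at *
    obtain ⟨a1, a2⟩ := a
    obtain ⟨c1, c2⟩ := c
    obtain ⟨u1, u2⟩ := u
    unfold Near sq at *
    simp only at *
    have ep : c1 = a1 + (c1 - a1) := by ring
    have eq : c2 = a2 + (c2 - a2) := by ring
    generalize c1 - a1 = p at *
    generalize c2 - a2 = q at *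
    subst ep eq
    set x := p * u1 + q * u2 with hx
    set y := -p * u2 + q * u1 with hy
    have hxy : x ^ 2 + y ^ 2 = p ^ 2 + q ^ 2 := by
      rw [hx, hy]
      have : (p * u1 + q * u2) ^ 2 + (-p * u2 + q * u1) ^ 2
          = (p ^ 2 + q ^ 2) * (u1 ^ 2 + u2 ^ 2) := by ring
      rw [this, hu, mul_one]
    have k1 : p ^ 2 + q ^ 2 ≤ δ ^ 2 := by
      have : (a1 - (a1 + p)) ^ 2 + (a2 - (a2 + q)) ^ 2 = p ^ 2 + q ^ 2 := by ring
      linarith
    have k2 : p ^ 2 + q ^ 2 ≤ 2 * δ * x := by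
      have : (a1 + δ * u1 - (a1 + p)) ^ 2 + (a2 + δ * u2 - (a2 + q)) ^ 2
          = (p ^ 2 + q ^ 2) - 2 * δ * (p * u1 + q * u2) + δ ^ 2 * (u1 ^ 2 + u2 ^ 2) := by ring
      rw [this, hu] at hbc
      rw [hx]; linarith
    have hx0 : 0 ≤ x := by
      by_contra hneg
      push Not at hneg
      have h2 : δ * x ≤ 0 := mul_nonpos_of_nonneg_of_nonpos h0 hneg.le
      have h3 : 0 < x ^ 2 := by nlinarith
      nlinarith [sq_nonneg y]
    have hx1 : x ≤ 1 := le_of_sq (by nlinarith [sq_nonneg y]) (by norm_num)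
    have k3 : p ^ 2 + q ^ 2 ≤ 2 * x := by
      have := mul_nonneg (by linarith : 0 ≤ 1 - δ) hx0
      linarith
    have hw : (p * (u1 / 2 - ε * s * u2) + q * (u2 / 2 + ε * s * u1)) = x / 2 + s * (ε * y) := by
      rw [hx, hy]; ring
    have hεy1 : (ε * y) ^ 2 = y ^ 2 := by rw [mul_pow, hε, one_mul]
    have hy1 : ε * y ≤ 1 := le_of_sq (by rw [hεy1]; nlinarith [sq_nonneg x]) (by norm_num)
    have hεs : (ε * s) ^ 2 = 3 / 4 := by rw [mul_pow, hε, hs2]; norm_num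
    have hw1 : (u1 / 2 - ε * s * u2) ^ 2 + (u2 / 2 + ε * s * u1) ^ 2 = 1 := by
      have : (u1 / 2 - ε * s * u2) ^ 2 + (u2 / 2 + ε * s * u1) ^ 2
          = (1 / 4 + (ε * s) ^ 2) * (u1 ^ 2 + u2 ^ 2) := by ring
      rw [this, hεs, hu]; norm_num
    refine ⟨?_, ?_, ?_⟩
    · have : (a1 + p - a1) ^ 2 + (a2 + q - a2) ^ 2 = p ^ 2 + q ^ 2 := by ring
      linarith
    · have : (a1 + p - (a1 + u1)) ^ 2 + (a2 + q - (a2 + u2)) ^ 2
          = (p ^ 2 + q ^ 2) - 2 * (p * u1 + q * u2) + (u1 ^ 2 + u2 ^ 2) := by ring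
      rw [this, hu]; linarith
    · have : (a1 + p - (a1 + (u1 / 2 - ε * s * u2))) ^ 2
          + (a2 + q - (a2 + (u2 / 2 + ε * s * u1))) ^ 2
          = (p ^ 2 + q ^ 2) - 2 * (p * (u1 / 2 - ε * s * u2) + q * (u2 / 2 + ε * s * u1))
            + ((u1 / 2 - ε * s * u2) ^ 2 + (u2 / 2 + ε * s * u1) ^ 2) := by ring
      rw [this, hw1, hw, ← hxy, ← hεy1]
      have j1 : x ^ 2 ≤ x := by
        have := mul_nonneg hx0 (by linarith : 0 ≤ 1 - x)
        linarith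
      have j2 : (ε * y) ^ 2 ≤ ε * y := by
        have := mul_nonneg hεy (by linarith : 0 ≤ 1 - ε * y)
        linarith
      have j3 : 0 ≤ (2 * s - 1) * (ε * y) := mul_nonneg (by linarith) hεy
      linarith
  obtain ⟨l, r, hr1, -, cl, cr⟩ := ext a u (1, 0) ε hε hu (by norm_num)
  obtain ⟨bo, tp, -, ht2, cb, ct⟩ := ext a u (0, 1) ε hε hu (by norm_num)
  simp only at hr1 ht2
  have key : ∀ p, Near a (a.1 + u.1, a.2 + u.2)
        (a.1 + (u.1 / 2 - ε * (√3 / 2) * u.2), a.2 + (u.2 / 2 + ε * (√3 / 2) * u.1)) p →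
      (p.1 - l.1, p.2 - bo.2) ∈ shape := by
    intro p hp
    exact mem_shape hr1 ht2 (cl.2 p hp) (cr.2 p hp) (cb.2 p hp) (ct.2 p hp)
      (cb.2 l cl.1) (ct.2 l cl.1) (cb.2 r cr.1) (ct.2 r cr.1)
  have hεs : (ε * (√3 / 2)) ^ 2 = 3 / 4 := by rw [mul_pow, hε, hs2]; norm_num
  have hw1 : (u.1 / 2 - ε * (√3 / 2) * u.2) ^ 2 + (u.2 / 2 + ε * (√3 / 2) * u.1) ^ 2 = 1 := by
    have : (u.1 / 2 - ε * (√3 / 2) * u.2) ^ 2 + (u.2 / 2 + ε * (√3 / 2) * u.1) ^ 2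
        = (1 / 4 + (ε * (√3 / 2)) ^ 2) * (u.1 ^ 2 + u.2 ^ 2) := by ring
    rw [this, hεs, hu]; norm_num
  have na : Near a (a.1 + u.1, a.2 + u.2)
        (a.1 + (u.1 / 2 - ε * (√3 / 2) * u.2), a.2 + (u.2 / 2 + ε * (√3 / 2) * u.1)) a := by
    refine ⟨?_, ?_, ?_⟩
    · unfold sq; norm_num
    · have : sq a (a.1 + u.1, a.2 + u.2) = u.1 ^ 2 + u.2 ^ 2 := by unfold sq; ring
      rw [this, hu]
    · have : sq a (a.1 + (u.1 / 2 - ε * (√3 / 2) * u.2), a.2 + (u.2 / 2 + ε * (√3 / 2) * u.1))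
          = (u.1 / 2 - ε * (√3 / 2) * u.2) ^ 2 + (u.2 / 2 + ε * (√3 / 2) * u.1) ^ 2 := by
        unfold sq; ring
      rw [this, hw1]
  have nb : Near a (a.1 + u.1, a.2 + u.2)
        (a.1 + (u.1 / 2 - ε * (√3 / 2) * u.2), a.2 + (u.2 / 2 + ε * (√3 / 2) * u.1))
        (a.1 + u.1, a.2 + u.2) := by
    refine ⟨?_, ?_, ?_⟩
    · have : sq (a.1 + u.1, a.2 + u.2) a = u.1 ^ 2 + u.2 ^ 2 := by unfold sq; ring
      rw [this, hu]
    · unfold sq; norm_num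
    · have : sq (a.1 + u.1, a.2 + u.2)
          (a.1 + (u.1 / 2 - ε * (√3 / 2) * u.2), a.2 + (u.2 / 2 + ε * (√3 / 2) * u.1))
          = (1 / 4 + (ε * (√3 / 2)) ^ 2) * (u.1 ^ 2 + u.2 ^ 2) := by
        unfold sq; ring
      rw [this, hεs, hu]; norm_num
  have ma := key a na
  have mb := key _ nb
  refine ⟨l.1, bo.2, ma, ?_, key c nc⟩
  have := shape_convex ma mb (a := 1 - δ) (b := δ) (by linarith) h0 (by ring)
  have e : ((1 - δ) • (a.1 - l.1, a.2 - bo.2) + δ • (a.1 + u.1 - l.1, a.2 + u.2 - bo.2) : ℝ × ℝ)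
      = (a.1 + δ * u.1 - l.1, a.2 + δ * u.2 - bo.2) := by
    ext <;> simp <;> ring
  rw [e] at this
  exact this

/-- The three point statement when the first two points realise the diameter. -/
lemma three_ordered (a b c : ℝ × ℝ) (hab : sq a b ≤ 1) (hac : sq a c ≤ sq a b)
    (hbc : sq b c ≤ sq a b) :
    ∃ x0 y0 : ℝ, (a.1 - x0, a.2 - y0) ∈ shape ∧ (b.1 - x0, b.2 - y0) ∈ shape ∧
      (c.1 - x0, c.2 - y0) ∈ shape := by
  have hsq0 : 0 ≤ sq a b := by unfold sq; positivity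
  have hδ2 : √(sq a b) ^ 2 = sq a b := Real.sq_sqrt hsq0
  have hδ0 := Real.sqrt_nonneg (sq a b)
  have hδ1 : √(sq a b) ≤ 1 := Real.sqrt_le_one.mpr hab
  obtain ⟨u, hu, hb1, hb2⟩ : ∃ u : ℝ × ℝ, u.1 ^ 2 + u.2 ^ 2 = 1 ∧
      b.1 = a.1 + √(sq a b) * u.1 ∧ b.2 = a.2 + √(sq a b) * u.2 := by
    rcases eq_or_lt_of_le hδ0 with h | h
    · refine ⟨(1, 0), by norm_num, ?_, ?_⟩
      · rw [← h] at hδ2 ⊢
        unfold sq at hδ2
        nlinarith [sq_nonneg (a.1 - b.1), sq_nonneg (a.2 - b.2)]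
      · rw [← h] at hδ2 ⊢
        unfold sq at hδ2
        nlinarith [sq_nonneg (a.1 - b.1), sq_nonneg (a.2 - b.2)]
    · refine ⟨((b.1 - a.1) / √(sq a b), (b.2 - a.2) / √(sq a b)), ?_, ?_, ?_⟩
      · simp only [div_pow, hδ2]
        rw [← add_div]
        have h0 : sq a b ≠ 0 := by
          intro h0
          rw [h0] at h
          simp at h
        rw [div_eq_one_iff_eq h0]
        unfold sq; ring
      · simp only; field_simp; ring
      · simp only; field_simp; ring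
  have eb : b = (a.1 + √(sq a b) * u.1, a.2 + √(sq a b) * u.2) := Prod.ext hb1 hb2
  obtain ⟨x0, y0, h1, h2, h3⟩ := three_aux a c u (√(sq a b)) hu hδ0 hδ1 (by rw [hδ2]; exact hac)
    (by rw [← eb, hδ2]; exact hbc)
  refine ⟨x0, y0, h1, ?_, h3⟩
  rw [hb1, hb2]
  exact h2

/-- The three point statement. -/
theorem three_points (a b c : ℝ × ℝ) (hab : sq a b ≤ 1) (hac : sq a c ≤ 1) (hbc : sq b c ≤ 1) :
    ∃ x0 y0 : ℝ, (a.1 - x0, a.2 - y0) ∈ shape ∧ (b.1 - x0, b.2 - y0) ∈ shape ∧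
      (c.1 - x0, c.2 - y0) ∈ shape := by
  rcases le_total (sq a b) (sq a c) with h1 | h1
  · rcases le_total (sq a c) (sq b c) with h2 | h2
    · -- b c is the largest
      obtain ⟨x0, y0, k1, k2, k3⟩ := three_ordered b c a hbc
        (by rw [sq_comm' b a]; linarith) (by rw [sq_comm' c a]; linarith)
      exact ⟨x0, y0, k3, k1, k2⟩
    · obtain ⟨x0, y0, k1, k2, k3⟩ := three_ordered a c b hac h1
        (by rw [sq_comm' c b]; linarith)
      exact ⟨x0, y0, k1, k3, k2⟩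
  · rcases le_total (sq a b) (sq b c) with h2 | h2
    · obtain ⟨x0, y0, k1, k2, k3⟩ := three_ordered b c a hbc
        (by rw [sq_comm' b a]; linarith) (by rw [sq_comm' c a]; linarith)
      exact ⟨x0, y0, k3, k1, k2⟩
    · exact three_ordered a b c hab h1 h2

end Pool.Agent.TCUpper
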