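import Pool.Agent.Helper22_TC_Upper.Three

/-!
The truncated square `Q` contains a translate of every plane set of diameter one, and its area is
`π/6 + 2√3 - 3`.
-/

set_option autoImplicit false

namespace Pool.Agent.TCUpper

open Real MeasureTheory

/-- The Euclidean plane. -/
abbrev Plane := EuclideanSpace ℝ (Fin 2)

/-- The truncated square as a subset of the Euclidean plane. -/
def Q : Set Plane := {p | ((p 0, p 1) : ℝ × ℝ) ∈ shape}

lemma Q_convex : Convex ℝ Q := by
  intro x hx y hy a b ha hb hab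
  have := shape_convex hx hy ha hb hab
  simpa [Q] using this

lemma shape_closed : IsClosed shape := by
  have h1 : IsClosed {p : ℝ × ℝ | 0 ≤ p.1} := isClosed_le continuous_const continuous_fst
  have h2 : IsClosed {p : ℝ × ℝ | p.1 ≤ 1} := isClosed_le continuous_fst continuous_const
  have h3 : IsClosed {p : ℝ × ℝ | p.2 ≤ prof p.1} :=
    isClosed_le continuous_snd (prof_continuous.comp continuous_fst)
  have h4 : IsClosed {p : ℝ × ℝ | 1 - p.2 ≤ prof p.1} :=
    isClosed_le (continuous_const.sub continuous_snd) (prof_continuous.comp continuous_fst)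
  exact h1.inter (h2.inter (h3.inter h4))

lemma prof_le_one {x : ℝ} (h0 : 0 ≤ x) (h1 : x ≤ 1) : prof x ≤ 1 := by
  refine (min_le_left _ _).trans (arc_le_one ?_)
  have h2 : max x (√3 / 2) ≤ 1 := max_le h1 s_lt_one.le
  have h3 : 0 ≤ max x (√3 / 2) := le_max_of_le_left h0
  nlinarith

lemma Q_closed : IsClosed Q := by
  have : Continuous (fun p : Plane => ((p 0, p 1) : ℝ × ℝ)) := by fun_prop
  exact shape_closed.preimage this

lemma Q_bounded : Bornology.IsBounded Q := by
  refine (Metric.isBounded_closedBall (x := (0 : Plane)) (r := 2)).subset ?_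
  intro p hp
  obtain ⟨h1, h2, h3, h4⟩ := hp
  simp only at h1 h2 h3 h4
  have h5 := prof_le_one h1 h2
  rw [mem_closedBall_zero_iff, EuclideanSpace.norm_eq, Real.sqrt_le_left (by norm_num)]
  simp only [Fin.sum_univ_two, Real.norm_eq_abs, sq_abs]
  nlinarith

lemma Q_compact : IsCompact Q := Metric.isCompact_of_isClosed_isBounded Q_closed Q_bounded

lemma sq_le_of_dist {p q : Plane} (h : dist p q ≤ 1) : sq (p 0, p 1) (q 0, q 1) ≤ 1 := by
  rw [EuclideanSpace.dist_eq, Real.sqrt_le_left (by norm_num)] at h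
  simp only [Fin.sum_univ_two, Real.dist_eq, sq_abs] at h
  unfold sq
  simpa using h

lemma three_plane (a b c : Plane) (hab : dist a b ≤ 1) (hac : dist a c ≤ 1)
    (hbc : dist b c ≤ 1) : ∃ v : Plane, a + v ∈ Q ∧ b + v ∈ Q ∧ c + v ∈ Q := by
  obtain ⟨x0, y0, h1, h2, h3⟩ := three_points (a 0, a 1) (b 0, b 1) (c 0, c 1)
    (sq_le_of_dist hab) (sq_le_of_dist hac) (sq_le_of_dist hbc)
  refine ⟨!₂[-x0, -y0], ?_, ?_, ?_⟩
  · simpa [Q, sub_eq_add_neg] using h1
  · simpa [Q, sub_eq_add_neg] using h2
  · simpa [Q, sub_eq_add_neg] using h3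

lemma finset_three (I : Finset Plane) (hI : I.card ≤ 3)
    (hd : ∀ x ∈ I, ∀ y ∈ I, dist x y ≤ 1) : ∃ v : Plane, ∀ x ∈ I, x + v ∈ Q := by
  classical
  interval_cases h : I.card
  · rw [Finset.card_eq_zero] at h
    subst h
    exact ⟨0, by simp⟩
  · obtain ⟨a, rfl⟩ := Finset.card_eq_one.mp h
    have := hd a (by simp) a (by simp)
    obtain ⟨v, h1, -, -⟩ := three_plane a a a this this this
    exact ⟨v, by simpa using h1⟩
  · obtain ⟨a, b, -, rfl⟩ := Finset.card_eq_two.mp h
    have haa := hd a (by simp) a (by simp)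
    have hab := hd a (by simp) b (by simp)
    obtain ⟨v, h1, -, h2⟩ := three_plane a a b haa hab hab
    exact ⟨v, by simpa using ⟨h1, h2⟩⟩
  · obtain ⟨a, b, c, -, -, -, rfl⟩ := Finset.card_eq_three.mp h
    have hab := hd a (by simp) b (by simp)
    have hac := hd a (by simp) c (by simp)
    have hbc := hd b (by simp) c (by simp)
    obtain ⟨v, h1, h2, h3⟩ := three_plane a b c hab hac hbc
    exact ⟨v, by simpa using ⟨h1, h2, h3⟩⟩

theorem cover (S : Set Plane) (hS : Metric.ediam S = 1) :
    ∃ v : Plane, (fun x => x + v) '' S ⊆ Q := by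
  classical
  have hd : ∀ x ∈ S, ∀ y ∈ S, dist x y ≤ 1 := by
    intro x hx y hy
    have := Metric.edist_le_ediam_of_mem hx hy
    rw [hS, edist_dist] at this
    have h1 : ENNReal.ofReal (dist x y) ≤ ENNReal.ofReal 1 := by simpa using this
    exact (ENNReal.ofReal_le_ofReal_iff (by norm_num)).mp h1
  have key : (⋂ p : S, {v : Plane | (p : Plane) + v ∈ Q}).Nonempty := by
    apply Convex.helly_theorem_compact' (𝕜 := ℝ)
    · intro p
      exact Q_convex.translate_preimage_right _
    · intro p
      have : {v : Plane | (p : Plane) + v ∈ Q} = (Homeomorph.addLeft (p : Plane)) ⁻¹' Q := rfl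
      rw [this]
      exact (Homeomorph.isCompact_preimage _).mpr Q_compact
    · intro I hI
      rw [finrank_euclideanSpace, Fintype.card_fin] at hI
      obtain ⟨v, hv⟩ := finset_three (I.image (fun p : S => (p : Plane)))
        (Finset.card_image_le.trans hI) (by
          intro x hx y hy
          simp only [Finset.mem_image] at hx hy
          obtain ⟨x', -, rfl⟩ := hx
          obtain ⟨y', -, rfl⟩ := hy
          exact hd _ x'.2 _ y'.2)
      refine ⟨v, ?_⟩
      simp only [Set.mem_iInter]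
      intro p hp
      exact hv _ (Finset.mem_image_of_mem _ hp)
  obtain ⟨v, hv⟩ := key
  refine ⟨v, ?_⟩
  rintro _ ⟨x, hx, rfl⟩
  have := Set.mem_iInter.mp hv ⟨x, hx⟩
  exact this

/-- Slice of the shape. -/
lemma shape_slice (x : ℝ) : Prod.mk x ⁻¹' shape =
    if x ∈ Set.Icc (0 : ℝ) 1 then Set.Icc (1 - prof x) (prof x) else ∅ := by
  ext y
  split_ifs with h
  · simp only [shape, Set.mem_preimage, Set.mem_ofPred_eq, Set.mem_Icc]
    constructor
    · rintro ⟨-, -, h3, h4⟩
      exact ⟨by linarith, h3⟩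
    · rintro ⟨h3, h4⟩
      exact ⟨h.1, h.2, h4, by linarith⟩
  · simp only [shape, Set.mem_preimage, Set.mem_ofPred_eq, Set.mem_empty_iff_false, iff_false]
    rintro ⟨h1, h2, -, -⟩
    exact h ⟨h1, h2⟩

/-- Antiderivative of the corner arc. -/
noncomputable def prim (x : ℝ) : ℝ := √3 / 4 * x ^ 2 + 1 / 4 * (x * √(1 - x ^ 2) + arcsin x)

lemma prim_deriv {x : ℝ} (h1 : -1 < x) (h2 : x < 1) : HasDerivAt prim (arc x) x := by
  have hpos : 0 < 1 - x ^ 2 := by nlinarith
  have hs : HasDerivAt (fun x : ℝ => √(1 - x ^ 2)) ((-(2 * x)) / (2 * √(1 - x ^ 2))) x := by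
    have h : HasDerivAt (fun x : ℝ => 1 - x ^ 2) (-(2 * x)) x := by
      simpa using (hasDerivAt_pow 2 x).const_sub 1
    exact h.sqrt hpos.ne'
  have ha : HasDerivAt arcsin (1 / √(1 - x ^ 2)) x :=
    Real.hasDerivAt_arcsin (by linarith) (by linarith)
  have hp : HasDerivAt (fun x : ℝ => √3 / 4 * x ^ 2) (√3 / 4 * (2 * x)) x := by
    simpa using (hasDerivAt_pow 2 x).const_mul (√3 / 4)
  have hm := (hasDerivAt_id x).mul hs
  have := hp.add ((hm.add ha).const_mul (1 / 4))
  refine this.congr_deriv ?_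
  unfold arc
  have hu : √(1 - x ^ 2) ^ 2 = 1 - x ^ 2 := Real.sq_sqrt hpos.le
  have hu0 : 0 < √(1 - x ^ 2) := Real.sqrt_pos.mpr hpos
  simp only [id_eq]
  field_simp
  linear_combination (-2) * hu

lemma prim_continuous : Continuous prim := by
  unfold prim
  have := Real.continuous_arcsin
  fun_prop

lemma integral_arc : ∫ x in (√3 / 2)..1, arc x = π / 24 := by
  rw [intervalIntegral.integral_eq_sub_of_hasDerivAt_of_le s_lt_one.le
    prim_continuous.continuousOn (f' := arc)
    (fun x hx => prim_deriv (by linarith [hx.1, s_gt]) hx.2)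
    (arc_continuous.intervalIntegrable _ _)]
  unfold prim
  have h1 : √(1 - (√3 / 2) ^ 2) = 1 / 2 := by
    have h : (1 : ℝ) - (√3 / 2) ^ 2 = (1 / 2) ^ 2 := by rw [s_sq]; norm_num
    rw [h, Real.sqrt_sq (by norm_num)]
  have h2 : arcsin (√3 / 2) = π / 3 := by
    rw [← Real.sin_pi_div_three]
    exact Real.arcsin_sin (by linarith [Real.pi_pos]) (by linarith [Real.pi_pos])
  rw [h1, h2, Real.arcsin_one, s_sq]
  have h3 : √(1 - (1 : ℝ) ^ 2) = 0 := by norm_num
  rw [h3]
  ring

lemma prof_symm (x : ℝ) : prof (1 - x) = prof x := by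
  unfold prof
  rw [sub_sub_cancel, min_comm]

lemma integral_prof_right : ∫ x in (√3 / 2)..1, prof x = π / 24 := by
  rw [← integral_arc]
  apply intervalIntegral.integral_congr
  intro x hx
  rw [Set.uIcc_of_le s_lt_one.le] at hx
  have h1 : max x (√3 / 2) = x := max_eq_left hx.1
  have h2 : max (1 - x) (√3 / 2) = √3 / 2 := max_eq_right (by linarith [hx.1, s_gt])
  simp only [prof, h1, h2, arc_s]
  refine min_eq_left (arc_le_one ?_)
  have := hx.1
  have := hx.2
  nlinarith [s_gt]

lemma integral_prof_left : ∫ x in (0 : ℝ)..(1 - √3 / 2), prof x = π / 24 := by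
  have h := intervalIntegral.integral_comp_sub_left (a := 0) (b := 1 - √3 / 2) prof 1
  simp only [prof_symm, sub_zero, sub_sub_cancel] at h
  rw [h, integral_prof_right]

lemma integral_prof_mid : ∫ x in (1 - √3 / 2)..(√3 / 2), prof x = √3 - 1 := by
  have hle : 1 - √3 / 2 ≤ √3 / 2 := by linarith [s_gt]
  have : ∫ x in (1 - √3 / 2)..(√3 / 2), prof x = ∫ x in (1 - √3 / 2)..(√3 / 2), (1 : ℝ) := by
    apply intervalIntegral.integral_congr
    intro x hx
    rw [Set.uIcc_of_le hle] at hx
    have h1 : max x (√3 / 2) = √3 / 2 := max_eq_right hx.2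
    have h2 : max (1 - x) (√3 / 2) = √3 / 2 := max_eq_right (by linarith [hx.1])
    simp only [prof, h1, h2, arc_s, min_self]
  rw [this, intervalIntegral.integral_const]
  simp only [smul_eq_mul, mul_one]
  ring

lemma integral_prof : ∫ x in (0 : ℝ)..1, prof x = π / 12 + √3 - 1 := by
  have hi : ∀ a b : ℝ, IntervalIntegrable prof volume a b :=
    fun a b => prof_continuous.intervalIntegrable a b
  rw [← intervalIntegral.integral_add_adjacent_intervals (hi 0 (√3 / 2)) (hi _ 1),
    ← intervalIntegral.integral_add_adjacent_intervals (hi 0 (1 - √3 / 2)) (hi _ (√3 / 2)),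
    integral_prof_left, integral_prof_mid, integral_prof_right]
  ring

lemma half_le_prof {x : ℝ} (h0 : 0 ≤ x) (h1 : x ≤ 1) : 1 / 2 ≤ prof x := by
  have hs := s_gt
  refine le_min ?_ ?_
  · have := s_le_arc (x := max x (√3 / 2)) (le_max_right _ _) (max_le h1 s_lt_one.le)
    linarith
  · have := s_le_arc (x := max (1 - x) (√3 / 2)) (le_max_right _ _)
      (max_le (by linarith) s_lt_one.le)
    linarith

lemma volume_shape : volume shape = ENNReal.ofReal (π / 6 + 2 * √3 - 3) := by
  rw [Measure.volume_eq_prod, Measure.prod_apply shape_closed.measurableSet]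
  have h1 : ∀ x : ℝ, volume (Prod.mk x ⁻¹' shape) =
      (Set.Icc (0 : ℝ) 1).indicator (fun x => ENNReal.ofReal (2 * prof x - 1)) x := by
    intro x
    rw [shape_slice]
    by_cases hx : x ∈ Set.Icc (0 : ℝ) 1
    · rw [if_pos hx, Set.indicator_of_mem hx, Real.volume_Icc]
      congr 1
      ring
    · rw [if_neg hx, Set.indicator_of_notMem hx, measure_empty]
  simp_rw [h1]
  rw [lintegral_indicator measurableSet_Icc]
  have hc : Continuous (fun x => 2 * prof x - 1) := by
    have := prof_continuous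
    fun_prop
  rw [← ofReal_integral_eq_lintegral_ofReal (hc.continuousOn.integrableOn_Icc)]
  · rw [integral_Icc_eq_integral_Ioc, ← intervalIntegral.integral_of_le zero_le_one]
    congr 1
    have hi : IntervalIntegrable prof volume 0 1 := prof_continuous.intervalIntegrable 0 1
    rw [intervalIntegral.integral_sub (hi.const_mul 2) (by simp),
      intervalIntegral.integral_const_mul, integral_prof]
    simp
    ring
  · rw [Filter.EventuallyLE, ae_restrict_iff' measurableSet_Icc]
    refine Filter.Eventually.of_forall ?_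
    intro x hx
    have := half_le_prof hx.1 hx.2
    simp only [Pi.zero_apply]
    linarith

lemma volume_Q : volume Q = ENNReal.ofReal (π / 6 + 2 * √3 - 3) := by
  rw [← volume_shape]
  have h1 := PiLp.volume_preserving_ofLp (Fin 2)
  have h2 := volume_preserving_finTwoArrow ℝ
  have h3 := h2.comp h1
  have : Q = (MeasurableEquiv.finTwoArrow ∘ (WithLp.ofLp : Plane → (Fin 2 → ℝ))) ⁻¹' shape := rfl
  rw [this]
  exact h3.measure_preimage shape_closed.measurableSet.nullMeasurableSet

end Pool.Agent.TCUpper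

open Pool.Agent.TCUpper in
/-- There is a convex plane set of area `π/6 + 2√3 - 3` containing a translate of every plane set
of diameter one. -/
theorem Pool.Agent.TCUpper.upper_cover : ∃ Q : Set (EuclideanSpace ℝ (Fin 2)), Convex ℝ Q ∧
    (∀ S : Set (EuclideanSpace ℝ (Fin 2)), EMetric.diam S = 1 →
      ∃ v : EuclideanSpace ℝ (Fin 2), (fun x => x + v) '' S ⊆ Q) ∧
    MeasureTheory.volume Q = ENNReal.ofReal (Real.pi / 6 + 2 * Real.sqrt 3 - 3) :=
  ⟨Q, Q_convex, cover, volume_Q⟩
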